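import Pool.Agent.Q30.LS.LS2

/-!
# Quotients by stabilizers of vertices of prescribed heights
-/

set_option autoImplicit false

namespace Q30.LS

open Pool.Agent.Y110.FJ (ClosedE permAut)
open Q30.FJ (ClosedF Maps CR GProd desc fp)

variable {C : ∀ (G : Type) [Group G], Prop}

section setup

variable {P G D : Type} [Group P] [Group G] [Group D] (ι : P →* G) (h : G →* D) (S : Set D)

/-- the conjugates of `P` at heights in `S` -/
def gs : Set h.ker := {x | ∃ (g : G) (p : P), h g ∈ S ∧ (x : G) = g * ι p * g⁻¹}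

/-- the normal subgroup which is divided out -/
def Rs : Subgroup h.ker := Subgroup.normalClosure (gs ι h S)

instance : (Rs ι h S).Normal := Subgroup.normalClosure_normal

variable {ι h S}

theorem Rs_le (Z : Subgroup h.ker) (hZ : gs ι h S ⊆ Z) : Rs ι h S ≤ Z := by
  unfold Rs Subgroup.normalClosure
  rw [Subgroup.closure_le]
  intro y hy
  rw [Group.mem_conjugatesOfSet_iff] at hy
  obtain ⟨x, ⟨g, p, hg, hx⟩, hxy⟩ := hy
  rw [isConj_iff] at hxy
  obtain ⟨c, rfl⟩ := hxy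
  apply hZ
  refine ⟨c.1 * g, p, ?_, ?_⟩
  · have hc : h c.1 = 1 := c.2
    rw [map_mul, hc, one_mul]
    exact hg
  · show c.1 * x.1 * (c.1)⁻¹ = _
    rw [hx]
    group

end setup

section main

variable {P G Q D : Type} [Group P] [Group G] [Group Q] [Group D] {ι : P →* G} {ρ : G →* Q}
  {s : Q → G} (hF : FPr ι ρ s) {h : G →* D} (hι : ∀ p, h (ι p) = 1) {S : Set D}

include hF hι in
theorem ker_le : ρ.ker ≤ h.ker := by
  apply hF.gen
  intro x p
  rw [MonoidHom.mem_ker, map_mul, map_mul, hι, mul_one, map_inv, mul_inv_cancel]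

include hF hι in
theorem h_eq (g : G) : h g = h (s (ρ g)) := by
  have h1 : g * (s (ρ g))⁻¹ ∈ ρ.ker := by
    rw [MonoidHom.mem_ker, map_mul, map_inv, hF.sec, mul_inv_cancel]
  have h2 := ker_le hF hι h1
  rw [MonoidHom.mem_ker, map_mul, map_inv, mul_inv_eq_one] at h2
  exact h2

theorem sker (x : Q) (p : P) (hF : FPr ι ρ s) : s x * ι p * (s x)⁻¹ ∈ ρ.ker := by
  rw [MonoidHom.mem_ker, map_mul, map_mul, hF.ker, mul_one, map_inv, mul_inv_cancel]

/-- the kernel of the map to `Q` -/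
def NH (h : G →* D) (ρ : G →* Q) : Subgroup h.ker := (ρ.comp h.ker.subtype).ker

instance : (NH h ρ).Normal := MonoidHom.normal_ker _

include hF in
theorem Rs_le_NH : Rs ι h S ≤ NH h ρ := by
  apply Rs_le
  rintro x ⟨g, p, -, hx⟩
  show ρ x.1 = 1
  rw [hx, map_mul, map_mul, hF.ker, mul_one, map_inv, mul_inv_cancel]

/-- the factors -/
def av (hF : FPr ι ρ s) (hι : ∀ p, h (ι p) = 1) (S : Set D) (x : Q) : P →* h.ker ⧸ Rs ι h S :=
  (QuotientGroup.mk' (Rs ι h S)).comp (MonoidHom.mk' (fun p =>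
    (⟨s x * ι p * (s x)⁻¹, ker_le hF hι (sker x p hF)⟩ : h.ker)) (by
      intro a b
      apply Subtype.ext
      show s x * ι (a * b) * (s x)⁻¹ = (s x * ι a * (s x)⁻¹) * (s x * ι b * (s x)⁻¹)
      rw [map_mul]
      group))

theorem av_eq (x : Q) (p : P) : av hF hι S x p = QuotientGroup.mk' (Rs ι h S)
    ⟨s x * ι p * (s x)⁻¹, ker_le hF hι (sker x p hF)⟩ := rfl

/-- the image of the kernel -/
abbrev NB (ι : P →* G) (h : G →* D) (S : Set D) (ρ : G →* Q) : Subgroup (h.ker ⧸ Rs ι h S) :=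
  (NH h ρ).map (QuotientGroup.mk' (Rs ι h S))

instance : (NB ι h S ρ).Normal :=
  Subgroup.Normal.map inferInstance _ (QuotientGroup.mk'_surjective _)

theorem av_mem (x : Q) (p : P) : av hF hι S x p ∈ NB ι h S ρ :=
  ⟨⟨s x * ι p * (s x)⁻¹, ker_le hF hι (sker x p hF)⟩, sker x p hF, rfl⟩

include hι in
/-- homomorphisms on the image of the kernel -/
theorem core (H0 : Type) [Group H0] (F : Q → P →* H0) (hS : ∀ x, h (s x) ∈ S → F x = 1) :
    ∃ Φ : NB ι h S ρ →* H0, ∀ (x : Q) (p : P) (hm : av hF hι S x p ∈ NB ι h S ρ),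
      Φ ⟨_, hm⟩ = F x p := by
  obtain ⟨φ, hφ⟩ := hF.univ H0 F
  let φH : NH h ρ →* H0 := φ.comp (MonoidHom.mk' (fun y => (⟨y.1.1, y.2⟩ : ρ.ker)) (by
    intro a b
    rfl))
  have hkill : ∀ y : NH h ρ, (y : h.ker) ∈ Rs ι h S → φH y = 1 := by
    intro y hy
    have h1 : Rs ι h S ≤ φH.ker.map (NH h ρ).subtype := by
      apply Rs_le
      rintro x ⟨g, p, hg, hx⟩
      have hxN : x ∈ NH h ρ := by
        show ρ x.1 = 1
        rw [hx, map_mul, map_mul, hF.ker, mul_one, map_inv, mul_inv_cancel]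
      refine ⟨⟨x, hxN⟩, ?_, rfl⟩
      have hn : g * (s (ρ g))⁻¹ ∈ ρ.ker := by
        rw [MonoidHom.mem_ker, map_mul, map_inv, hF.sec, mul_inv_cancel]
      have h2 : (⟨x.1, hxN⟩ : ρ.ker) = ⟨_, hn⟩ * ⟨_, sker (ρ g) p hF⟩ * (⟨_, hn⟩ : ρ.ker)⁻¹ := by
        apply Subtype.ext
        show x.1 = g * (s (ρ g))⁻¹ * (s (ρ g) * ι p * (s (ρ g))⁻¹) * (g * (s (ρ g))⁻¹)⁻¹
        rw [hx]
        group
      show φ ⟨x.1, hxN⟩ = 1
      rw [h2, map_mul, map_mul, map_inv, hφ, hS (ρ g) (by rw [← h_eq hF hι]; exact hg)]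
      show φ ⟨_, hn⟩ * 1 * (φ ⟨_, hn⟩)⁻¹ = 1
      rw [mul_one, mul_inv_cancel]
    obtain ⟨z, hz, hzy⟩ := h1 hy
    have h2 : z = y := Subtype.ext hzy
    rw [← h2]
    exact hz
  obtain ⟨Φ, hΦ⟩ := desc (Rs ι h S) (NH h ρ) φH hkill
  refine ⟨Φ, fun x p hm => ?_⟩
  have h1 := hΦ ⟨⟨s x * ι p * (s x)⁻¹, ker_le hF hι (sker x p hF)⟩, sker x p hF⟩ ⟨_, hm⟩ rfl
  rw [h1]
  exact hφ x p (sker x p hF)

/-- the factors are embedded -/
theorem av_inj (x : Q) (hx : h (s x) ∉ S) : Function.Injective (av hF hι S x) := by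
  classical
  obtain ⟨Φ, hΦ⟩ := core hF hι (S := S) P (fun y => if y = x then MonoidHom.id P else 1) (by
    intro y hy
    rw [if_neg]
    rintro rfl
    exact hx hy)
  intro p p' hp
  have h1 := hΦ x p (av_mem hF hι x p)
  have h2 := hΦ x p' (av_mem hF hι x p')
  rw [if_pos rfl] at h1 h2
  have h3 : (⟨_, av_mem hF hι x p⟩ : NB ι h S ρ) = ⟨_, av_mem hF hι x p'⟩ := Subtype.ext hp
  rw [h3, h2] at h1
  exact h1.symm

/-- the free product -/
theorem gprod : GProd (⊥ : SimpleGraph {x : Q // h (s x) ∉ S})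
    (fun x => (av hF hι S x.1).range) (NB ι h S ρ) where
  le x := by
    rintro _ ⟨p, rfl⟩
    exact av_mem hF hι _ p
  gen M hM := by
    have h1 : ρ.ker ≤ (M.comap (QuotientGroup.mk' (Rs ι h S))).map h.ker.subtype := by
      apply hF.gen
      intro x p
      refine ⟨⟨s x * ι p * (s x)⁻¹, ker_le hF hι (sker x p hF)⟩, ?_, rfl⟩
      by_cases hx : h (s x) ∈ S
      · show QuotientGroup.mk' (Rs ι h S) _ ∈ M
        have h2 : (⟨s x * ι p * (s x)⁻¹, ker_le hF hι (sker x p hF)⟩ : h.ker) ∈ Rs ι h S :=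
          Subgroup.subset_normalClosure ⟨s x, p, hx, rfl⟩
        rw [QuotientGroup.mk'_apply, (QuotientGroup.eq_one_iff _).2 h2]
        exact one_mem _
      · exact hM ⟨x, hx⟩ ⟨p, rfl⟩
    rintro _ ⟨y, hy, rfl⟩
    obtain ⟨z, hz, hzy⟩ := h1 hy
    have h2 : z = y := Subtype.ext hzy
    rw [← h2]
    exact hz
  comm v w hvw := hvw.elim
  univ H0 _ f _ := by
    classical
    obtain ⟨Φ, hΦ⟩ := core hF hι (S := S) H0 (fun x => if hx : h (s x) ∉ S then
      (f ⟨x, hx⟩).comp (av hF hι S x).rangeRestrict else 1) (by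
        intro x hx
        rw [dif_neg (not_not.2 hx)])
    refine ⟨Φ, ?_⟩
    rintro ⟨x, hx⟩ ⟨_, p, rfl⟩
    have h1 := hΦ x p (av_mem hF hι x p)
    rw [dif_pos hx] at h1
    exact h1

include hF in
/-- the quotient -/
theorem quot_mem (hC : ClosedE C) (hQ : C Q) : C ((h.ker ⧸ Rs ι h S) ⧸ NB ι h S ρ) := by
  have h1 : C (h.ker ⧸ NH h ρ) :=
    hC.base.of_injective _ _ (QuotientGroup.kerLift (ρ.comp h.ker.subtype))
      (QuotientGroup.kerLift_injective _) hQ
  exact hC.base.of_injective _ _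
    (QuotientGroup.quotientQuotientEquivQuotient (Rs ι h S) (NH h ρ)
      (Rs_le_NH hF)).toMonoidHom
    (QuotientGroup.quotientQuotientEquivQuotient (Rs ι h S) (NH h ρ) (Rs_le_NH hF)).injective h1

include hF hι in
/-- **the quotients are in the class** -/
theorem main_mem (hC : ClosedF C) (hQ : C Q) (hP : C P) : C (h.ker ⧸ Rs ι h S) := by
  classical
  by_cases hne : ∃ p : P, p ≠ 1
  · obtain ⟨p0, hp0⟩ := hne
    have hperm : ∀ (u : h.ker) (v : Q), h (s (ρ u.1 * v)) = h (s v) ∧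
        ∃ n ∈ NB ι h S ρ, ∀ p, n * QuotientGroup.mk' (Rs ι h S) u * av hF hι S v p *
          (n * QuotientGroup.mk' (Rs ι h S) u)⁻¹ = av hF hι S (ρ u.1 * v) p := by
      intro u v
      have h1 : h (s (ρ u.1 * v)) = h (s v) := by
        have h2 := h_eq hF hι (u.1 * s v)
        rw [map_mul, map_mul, hF.sec] at h2
        rw [← h2]
        have h3 : h u.1 = 1 := u.2
        rw [h3, one_mul]
      refine ⟨h1, ?_⟩
      have hn : s (ρ u.1 * v) * (s v)⁻¹ * u.1⁻¹ ∈ ρ.ker := by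
        rw [MonoidHom.mem_ker, map_mul, map_mul, map_inv, map_inv, hF.sec, hF.sec]
        group
      refine ⟨QuotientGroup.mk' (Rs ι h S) ⟨_, ker_le hF hι hn⟩, ⟨_, hn, rfl⟩, fun p => ?_⟩
      rw [av_eq, av_eq, ← map_mul, ← map_mul, ← map_inv, ← map_mul]
      congr 1
      apply Subtype.ext
      show s (ρ u.1 * v) * (s v)⁻¹ * u.1⁻¹ * u.1 * (s v * ι p * (s v)⁻¹) *
        (s (ρ u.1 * v) * (s v)⁻¹ * u.1⁻¹ * u.1)⁻¹ = s (ρ u.1 * v) * ι p * (s (ρ u.1 * v))⁻¹
      group
    refine fp hC (gprod hF hι (S := S)) (quot_mem hF hC.base hQ) ?_ ?_ ?_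
    · rintro ⟨x, hx⟩ hbot
      have h1 : av hF hι S x p0 ∈ (av hF hι S x).range := ⟨p0, rfl⟩
      have h2 : (av hF hι S x).range = ⊥ := hbot
      rw [h2, Subgroup.mem_bot] at h1
      apply hp0
      apply av_inj hF hι x hx
      rw [h1, map_one]
    · rintro g ⟨v, hv⟩
      obtain ⟨u, rfl⟩ := QuotientGroup.mk'_surjective (Rs ι h S) g
      obtain ⟨h1, n, hn, h2⟩ := hperm u v
      refine ⟨⟨ρ u.1 * v, by rw [h1]; exact hv⟩, n, hn, fun x => ⟨?_, ?_⟩⟩
      · rintro ⟨p, rfl⟩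
        exact ⟨p, (h2 p).symm⟩
      · rintro ⟨p, hp⟩
        refine ⟨p, ?_⟩
        have h3 := (h2 p).trans hp
        exact mul_left_cancel (mul_right_cancel h3)
    · rintro ⟨v, hv⟩ g hg
      obtain ⟨u, rfl⟩ := QuotientGroup.mk'_surjective (Rs ι h S) g
      obtain ⟨h1, n, hn, h2⟩ := hperm u v
      have hρ : ρ u.1 * v = v := by
        by_contra hne
        obtain ⟨Φ, hΦ⟩ := core hF hι (S := S) P (fun y => if y = v then MonoidHom.id P else 1) (by
          intro y hy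
          rw [if_neg]
          rintro rfl
          exact hv hy)
        -- the conjugate of the element by `g` is in the factor
        obtain ⟨p1, hp1⟩ := (hg (av hF hι S v p0)).1 ⟨p0, rfl⟩
        have h3 : n * av hF hι S v p1 * n⁻¹ = av hF hι S (ρ u.1 * v) p0 := by
          rw [hp1, ← h2 p0]
          group
        have h4 : (⟨_, av_mem hF hι (ρ u.1 * v) p0⟩ : NB ι h S ρ) =
            ⟨n, hn⟩ * ⟨_, av_mem hF hι v p1⟩ * (⟨n, hn⟩ : NB ι h S ρ)⁻¹ := by
          apply Subtype.ext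
          exact h3.symm
        have h5 := hΦ (ρ u.1 * v) p0 (av_mem hF hι _ _)
        rw [if_neg hne, h4, map_mul, map_mul, map_inv, hΦ, if_pos rfl] at h5
        have h6 : Φ ⟨n, hn⟩ * p1 * (Φ ⟨n, hn⟩)⁻¹ = 1 := h5
        have h7 : p1 = 1 := by
          rw [mul_inv_eq_one] at h6
          exact mul_left_cancel (h6.trans (mul_one _).symm)
        rw [h7, map_one] at hp1
        have h8 : av hF hι S v p0 = 1 := by
          rw [eq_comm, mul_inv_eq_one] at hp1
          exact mul_left_cancel (hp1.trans (mul_one _).symm)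
        apply hp0
        apply av_inj hF hι v hv
        rw [h8, map_one]
      have hu : ρ u.1 = 1 := mul_right_cancel (hρ.trans (one_mul v).symm)
      have hgN : QuotientGroup.mk' (Rs ι h S) u ∈ NB ι h S ρ := ⟨u, hu, rfl⟩
      obtain ⟨Φ, hΦ⟩ := core hF hι (S := S) (av hF hι S v).range
        (fun y => if hy : y = v then (av hF hι S v).rangeRestrict else 1) (by
          intro y hy
          rw [dif_neg]
          rintro rfl
          exact hv hy)
      have hret : ∀ a : (av hF hι S v).range, ∀ ha : (a : h.ker ⧸ Rs ι h S) ∈ NB ι h S ρ,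
          Φ ⟨a, ha⟩ = a := by
        rintro ⟨_, p, rfl⟩ ha
        rw [hΦ v p ha, dif_pos rfl]
        rfl
      refine ⟨(av hF hι S v).range, inferInstance, MonoidHom.id _,
        Φ ⟨_, hgN⟩, ?_, Function.injective_id, ?_⟩
      · exact hC.base.base.of_injective _ _
          (MonoidHom.ofInjective (av_inj hF hι v hv)).symm.toMonoidHom
          (MonoidHom.ofInjective (av_inj hF hι v hv)).symm.injective hP
      · intro a a' haa
        have ha : (a : h.ker ⧸ Rs ι h S) ∈ NB ι h S ρ := by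
          obtain ⟨p, hp⟩ := a.2
          rw [← hp]
          exact av_mem hF hι v p
        have ha' : (a' : h.ker ⧸ Rs ι h S) ∈ NB ι h S ρ := by
          obtain ⟨p, hp⟩ := a'.2
          rw [← hp]
          exact av_mem hF hι v p
        show a' = Φ ⟨_, hgN⟩ * a * (Φ ⟨_, hgN⟩)⁻¹
        rw [← hret a ha, ← hret a' ha', ← map_mul, ← map_inv, ← map_mul]
        congr 1
        apply Subtype.ext
        exact haa
  · push Not at hne
    -- `P` is trivial
    have h1 : NH h ρ ≤ Rs ι h S := by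
      intro y hy
      have h2 : ρ.ker ≤ ⊥ := by
        apply hF.gen
        intro x p
        rw [hne p, map_one, mul_one, mul_inv_cancel]
        exact one_mem _
      have h3 : y.1 = 1 := h2 hy
      have h4 : y = 1 := Subtype.ext h3
      rw [h4]
      exact one_mem _
    have h2 := quot_mem (C := C) (h := h) (S := S) hF hC.base hQ
    refine hC.base.base.of_injective _ _ (QuotientGroup.mk' (NB ι h S ρ)) ?_ h2
    rw [injective_iff_map_eq_one]
    intro x hx
    rw [QuotientGroup.mk'_apply, QuotientGroup.eq_one_iff] at hx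
    obtain ⟨y, hy, rfl⟩ := hx
    rw [QuotientGroup.mk'_apply, QuotientGroup.eq_one_iff]
    exact h1 hy

include hF hι in
theorem main_all (hC : ClosedE C) (hQ : C Q) (hall : ∀ g, h g ∈ S) : C (h.ker ⧸ Rs ι h S) := by
  have h1 : NH h ρ ≤ Rs ι h S := by
    intro y hy
    have h2 : ρ.ker ≤ (Rs ι h S).map h.ker.subtype := by
      apply hF.gen
      intro x p
      refine ⟨⟨s x * ι p * (s x)⁻¹, ker_le hF hι (sker x p hF)⟩, ?_, rfl⟩
      exact Subgroup.subset_normalClosure ⟨s x, p, hall _, rfl⟩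
    obtain ⟨z, hz, hzy⟩ := h2 hy
    have h3 : z = y := Subtype.ext hzy
    rw [← h3]
    exact hz
  have h2 := quot_mem (C := C) (h := h) (S := S) hF hC hQ
  refine hC.base.of_injective _ _ (QuotientGroup.mk' (NB ι h S ρ)) ?_ h2
  rw [injective_iff_map_eq_one]
  intro x hx
  rw [QuotientGroup.mk'_apply, QuotientGroup.eq_one_iff] at hx
  obtain ⟨y, hy, rfl⟩ := hx
  rw [QuotientGroup.mk'_apply, QuotientGroup.eq_one_iff]
  exact h1 hy

include hF hι in
theorem main_conv (hC : ClosedE C) (hm : C (h.ker ⧸ Rs ι h S)) (g : G) (hg : h g ∉ S) : C P := by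
  have h1 : h (s (ρ g)) ∉ S := by
    rw [← h_eq hF hι]
    exact hg
  exact hC.base.of_injective _ _ (av hF hι S (ρ g)) (av_inj hF hι _ h1) hm

end main

end Q30.LS
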