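import Pool.Agent.Q30.FJ.GPf

/-!
# Kernels which are free products of conjugates, and free groups on sets with a free action
-/

set_option autoImplicit false

namespace Q30.LS

open Pool.Agent.Y110.FJ (ClosedE permAut)

/-- the kernel of `ρ` is the free product of the conjugates of the image of `ι` by the elements
`s x`, which are mapped to `x` by `ρ` -/
structure FPr {P G Q : Type} [Group P] [Group G] [Group Q] (ι : P →* G) (ρ : G →* Q)
    (s : Q → G) : Prop where
  sec : ∀ x, ρ (s x) = x
  ker : ∀ p, ρ (ι p) = 1
  gen : ∀ M : Subgroup G, (∀ x p, s x * ι p * (s x)⁻¹ ∈ M) → ρ.ker ≤ M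
  univ : ∀ (H : Type) [Group H] (f : Q → P →* H), ∃ φ : ρ.ker →* H,
    ∀ x p (h : s x * ι p * (s x)⁻¹ ∈ ρ.ker), φ ⟨_, h⟩ = f x p

theorem permAut_of {E B : Type} [Group B] [MulAction B E] (b : B) (e : E) :
    permAut E B b (FreeGroup.of e) = FreeGroup.of (b • e) := by
  show FreeGroup.freeGroupCongr (MulAction.toPerm b) (FreeGroup.of e) = _
  simp

section wr

variable (F H : Type) [Group F] [Group H]

/-- translation of functions -/
def tra : F →* MulAut (F → H) where
  toFun w :=
    { toFun := fun f x => f (w⁻¹ * x)
      invFun := fun f x => f (w * x)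
      left_inv := fun f => by
        funext x
        show f (w⁻¹ * (w * x)) = f x
        rw [inv_mul_cancel_left]
      right_inv := fun f => by
        funext x
        show f (w * (w⁻¹ * x)) = f x
        rw [mul_inv_cancel_left]
      map_mul' := fun f g => rfl }
  map_one' := by
    ext f x
    show f (1⁻¹ * x) = f x
    rw [inv_one, one_mul]
  map_mul' v w := by
    ext f x
    show f ((v * w)⁻¹ * x) = f (w⁻¹ * (v⁻¹ * x))
    rw [mul_inv_rev, mul_assoc]

variable {F H}

theorem tra_apply (w : F) (f : F → H) (x : F) : tra F H w f x = f (w⁻¹ * x) := rfl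

end wr

section step

variable {P B B' E E' : Type} [Group P] [Group B] [Group B'] [MulAction B E] [MulAction B' E']
  {ι : P →* B} {ρ : B →* B'} {s : B' → B} (q : E → E') (σ : E' → E)
  (hq : ∀ (b : B) (e : E), q (b • e) = ρ b • q e)

/-- the map of semidirect products -/
noncomputable def rG : FreeGroup E ⋊[permAut E B] B →* FreeGroup E' ⋊[permAut E' B'] B' :=
  SemidirectProduct.map (FreeGroup.map q) ρ (by
    intro b
    ext e
    show FreeGroup.map q (permAut E B b (FreeGroup.of e)) =
      permAut E' B' (ρ b) (FreeGroup.map q (FreeGroup.of e))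
    rw [permAut_of, FreeGroup.map.of, FreeGroup.map.of, permAut_of, hq])

theorem rG_left (x : FreeGroup E ⋊[permAut E B] B) : (rG q hq x).left = FreeGroup.map q x.left := rfl

theorem rG_right (x : FreeGroup E ⋊[permAut E B] B) : (rG q hq x).right = ρ x.right := rfl

/-- the section -/
noncomputable def sG (s : B' → B) (x : FreeGroup E' ⋊[permAut E' B'] B') : FreeGroup E ⋊[permAut E B] B :=
  SemidirectProduct.inl (FreeGroup.map σ x.left) * SemidirectProduct.inr (s x.right)

variable (hσ : ∀ e', q (σ e') = e')
  (hfib : ∀ e e' : E, q e = q e' → ∃ b : B, ρ b = 1 ∧ b • e = e')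
  (hfree : ∀ (b : B) (e : E), ρ b = 1 → b • e = e → b = 1)

/-- the inclusion of the part over the kernel -/
noncomputable def jN : (rG q hq).ker →* FreeGroup E ⋊[permAut E ρ.ker] ρ.ker where
  toFun x := ⟨x.1.left, ⟨x.1.right, by
    have h : rG q hq x.1 = 1 := x.2
    exact congrArg SemidirectProduct.right h⟩⟩
  map_one' := rfl
  map_mul' x y := by
    apply SemidirectProduct.ext
    · show (x.1 * y.1).left = x.1.left * permAut E ρ.ker ⟨x.1.right, _⟩ y.1.left
      rw [SemidirectProduct.mul_left]
      congr 1
    · rfl

section Psi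

variable {H : Type} [Group H] (φ : FreeGroup E' → ρ.ker →* H)

/-- the functions of an element of the kernel -/
noncomputable def psiN : ρ.ker →* (FreeGroup E' → H) ⋊[tra (FreeGroup E') H] (FreeGroup E') :=
  SemidirectProduct.inl.comp (MonoidHom.mk' (fun n w => φ w⁻¹ n) (by
    intro a b
    funext w
    exact map_mul _ a b))

theorem psiN_apply (n : ρ.ker) : psiN φ n = SemidirectProduct.inl (fun w => φ w⁻¹ n) := rfl

include hσ hfib hfree hq in
theorem exists_psi : ∃ Ψ : FreeGroup E ⋊[permAut E ρ.ker] ρ.ker →*
      (FreeGroup E' → H) ⋊[tra (FreeGroup E') H] (FreeGroup E'),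
    (∀ n, Ψ (SemidirectProduct.inr n) = psiN φ n) ∧
    (∀ e', Ψ (SemidirectProduct.inl (FreeGroup.of (σ e'))) =
      SemidirectProduct.inr (FreeGroup.of e')) ∧
    (∀ e, (Ψ (SemidirectProduct.inl (FreeGroup.of e))).right = FreeGroup.of (q e)) := by
  have hex : ∀ e : E, ∃ n : ρ.ker, n • σ (q e) = e := by
    intro e
    obtain ⟨b, hb, hbe⟩ := hfib (σ (q e)) e (hσ _)
    exact ⟨⟨b, hb⟩, hbe⟩
  choose ν hν using hex
  have huniq : ∀ (n m : ρ.ker) (e : E), n • e = m • e → n = m := by
    intro n m e h
    have h1 : (m⁻¹ * n) • e = e := by rw [mul_smul, h, inv_smul_smul]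
    have h2 := hfree (m⁻¹ * n : ρ.ker).1 e (m⁻¹ * n : ρ.ker).2 h1
    have h3 : m⁻¹ * n = 1 := Subtype.ext h2
    exact (inv_mul_eq_one.1 h3).symm
  let F1 : FreeGroup E →* (FreeGroup E' → H) ⋊[tra (FreeGroup E') H] (FreeGroup E') :=
    FreeGroup.lift fun e => psiN φ (ν e) * SemidirectProduct.inr (FreeGroup.of (q e)) *
      (psiN φ (ν e))⁻¹
  have hF1 : ∀ e, F1 (FreeGroup.of e) = psiN φ (ν e) *
      SemidirectProduct.inr (FreeGroup.of (q e)) * (psiN φ (ν e))⁻¹ := by
    intro e
    exact FreeGroup.lift_apply_of
  have hqk : ∀ (m : ρ.ker) (e : E), q (m • e) = q e := by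
    intro m e
    have h1 := hq m.1 e
    have h2 : ρ m.1 = 1 := m.2
    rw [h2, one_smul] at h1
    exact h1
  refine ⟨SemidirectProduct.lift F1 (psiN φ) ?_, ?_, ?_, ?_⟩
  · intro m
    ext1 e
    show F1 (permAut E ρ.ker m (FreeGroup.of e)) = psiN φ m * F1 (FreeGroup.of e) * (psiN φ m)⁻¹
    rw [permAut_of, hF1, hF1, hqk]
    have h1 : ν (m • e) = m * ν e := by
      apply huniq _ _ (σ (q e))
      have h2 := hν (m • e)
      rw [hqk] at h2
      rw [h2, mul_smul, hν]
    rw [h1, map_mul]
    group
  · intro n
    exact SemidirectProduct.lift_inr _ _ _ _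
  · intro e'
    rw [SemidirectProduct.lift_inl, hF1, hσ]
    have h1 : ν (σ e') = 1 := by
      apply huniq _ _ (σ e')
      have h2 := hν (σ e')
      rw [hσ] at h2
      rw [h2, one_smul]
    rw [h1, map_one, one_mul, inv_one, mul_one]
  · intro e
    rw [SemidirectProduct.lift_inl, hF1, SemidirectProduct.mul_right, SemidirectProduct.mul_right,
      SemidirectProduct.inv_right, psiN_apply, SemidirectProduct.right_inl, one_mul, inv_one, mul_one,
      SemidirectProduct.right_inr]

end Psi

include hσ hfib hfree in
/-- **the kernel after adding a free group on a set on which the kernel acts freely** -/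
theorem step (h : FPr ι ρ s) :
    FPr ((SemidirectProduct.inr : B →* FreeGroup E ⋊[permAut E B] B).comp ι) (rG q hq)
      (sG σ s) where
  sec x := by
    apply SemidirectProduct.ext
    · show FreeGroup.map q (sG σ s x).left = x.left
      have h1 : (sG σ s x : FreeGroup E ⋊[permAut E B] B).left = FreeGroup.map σ x.left := by
        unfold sG
        rw [SemidirectProduct.mul_left, SemidirectProduct.left_inl, SemidirectProduct.left_inr,
          map_one, mul_one]
      rw [h1, FreeGroup.map.comp]
      have h2 : q ∘ σ = id := funext hσ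
      rw [h2, FreeGroup.map.id]
    · show ρ (sG σ s x).right = x.right
      unfold sG
      rw [SemidirectProduct.mul_right, SemidirectProduct.right_inl, one_mul,
        SemidirectProduct.right_inr, h.sec]
  ker p := by
    show rG q hq (SemidirectProduct.inr (ι p)) = 1
    apply SemidirectProduct.ext
    · show FreeGroup.map q (SemidirectProduct.inr (ι p) : FreeGroup E ⋊[permAut E B] B).left = 1
      rw [SemidirectProduct.left_inr, map_one]
    · show ρ (SemidirectProduct.inr (ι p) : FreeGroup E ⋊[permAut E B] B).right = 1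
      rw [SemidirectProduct.right_inr, h.ker]
  gen M hM := by
    -- the subgroup generated by the conjugates of the kernel
    let gens : Set (FreeGroup E ⋊[permAut E B] B) := {x | ∃ (w : FreeGroup E') (n : B), ρ n = 1 ∧
      x = SemidirectProduct.inl (FreeGroup.map σ w) * SemidirectProduct.inr n *
        (SemidirectProduct.inl (FreeGroup.map σ w))⁻¹}
    let M0 : Subgroup (FreeGroup E ⋊[permAut E B] B) := Subgroup.closure gens
    have hM0 : M0 ≤ M := by
      rw [Subgroup.closure_le]
      rintro _ ⟨w, n, hn, rfl⟩
      let M1 : Subgroup B := M.comap ((MulAut.conj (SemidirectProduct.inl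
        (FreeGroup.map σ w))).toMonoidHom.comp SemidirectProduct.inr)
      have h1 : ρ.ker ≤ M1 := by
        apply h.gen
        intro y p
        have h2 := hM ⟨w, y⟩ p
        have h3 : sG σ s ⟨w, y⟩ * (SemidirectProduct.inr.comp ι) p * (sG σ s ⟨w, y⟩)⁻¹ =
            (MulAut.conj (SemidirectProduct.inl (FreeGroup.map σ w))).toMonoidHom
              (SemidirectProduct.inr (s y * ι p * (s y)⁻¹) : FreeGroup E ⋊[permAut E B] B) := by
          show SemidirectProduct.inl (FreeGroup.map σ w) * SemidirectProduct.inr (s y) *
            SemidirectProduct.inr (ι p) * (SemidirectProduct.inl (FreeGroup.map σ w) *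
            SemidirectProduct.inr (s y))⁻¹ = SemidirectProduct.inl (FreeGroup.map σ w) *
            SemidirectProduct.inr (s y * ι p * (s y)⁻¹) *
            (SemidirectProduct.inl (FreeGroup.map σ w))⁻¹
          rw [map_mul, map_mul, map_inv]
          group
        rw [h3] at h2
        exact h2
      exact h1 hn
    have hconj : ∀ (v : FreeGroup E') (x : FreeGroup E ⋊[permAut E B] B), x ∈ M0 →
        SemidirectProduct.inl (FreeGroup.map σ v) * x *
          (SemidirectProduct.inl (FreeGroup.map σ v))⁻¹ ∈ M0 := by
      intro v x hx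
      have h1 : M0 ≤ M0.comap (MulAut.conj (SemidirectProduct.inl
          (FreeGroup.map σ v))).toMonoidHom := by
        rw [Subgroup.closure_le]
        rintro _ ⟨w, n, hn, rfl⟩
        apply Subgroup.subset_closure
        refine ⟨v * w, n, hn, ?_⟩
        show SemidirectProduct.inl (FreeGroup.map σ v) * (SemidirectProduct.inl
          (FreeGroup.map σ w) * SemidirectProduct.inr n *
          (SemidirectProduct.inl (FreeGroup.map σ w))⁻¹) * (SemidirectProduct.inl
          (FreeGroup.map σ v))⁻¹ = _
        rw [map_mul, map_mul]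
        group
      exact h1 hx
    have hker : ∀ n : B, ρ n = 1 → (SemidirectProduct.inr n : FreeGroup E ⋊[permAut E B] B) ∈ M0 := by
      intro n hn
      apply Subgroup.subset_closure
      refine ⟨1, n, hn, ?_⟩
      rw [map_one, map_one, inv_one, mul_one, one_mul]
    have hword : ∀ u : FreeGroup E, (SemidirectProduct.inl u : FreeGroup E ⋊[permAut E B] B) *
        (SemidirectProduct.inl (FreeGroup.map σ (FreeGroup.map q u)))⁻¹ ∈ M0 := by
      intro u
      induction u using FreeGroup.induction_on with
      | C1 =>
        rw [map_one, map_one, map_one, map_one, inv_one, mul_one]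
        exact one_mem _
      | of e =>
        obtain ⟨b, hb, hbe⟩ := hfib (σ (q e)) e (hσ _)
        rw [FreeGroup.map.of, FreeGroup.map.of]
        have h1 : (SemidirectProduct.inl (FreeGroup.of e) : FreeGroup E ⋊[permAut E B] B) =
            SemidirectProduct.inr b * SemidirectProduct.inl (FreeGroup.of (σ (q e))) *
            (SemidirectProduct.inr b)⁻¹ := by
          rw [← map_inv, ← SemidirectProduct.inl_aut, permAut_of, hbe]
        rw [h1]
        have h2 : SemidirectProduct.inr b * SemidirectProduct.inl (FreeGroup.of (σ (q e))) *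
            (SemidirectProduct.inr b)⁻¹ * (SemidirectProduct.inl (FreeGroup.of (σ (q e))) :
              FreeGroup E ⋊[permAut E B] B)⁻¹ = SemidirectProduct.inr b *
            (SemidirectProduct.inl (FreeGroup.map σ (FreeGroup.of (q e))) *
              SemidirectProduct.inr b⁻¹ *
            (SemidirectProduct.inl (FreeGroup.map σ (FreeGroup.of (q e))))⁻¹) := by
          rw [FreeGroup.map.of, map_inv]
          group
        rw [h2]
        refine mul_mem (hker b hb) (hconj _ _ (hker _ ?_))
        rw [map_inv, hb, inv_one]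
      | inv_of e ih =>
        rw [map_inv, map_inv, map_inv, map_inv, inv_inv]
        have h1 := hconj (FreeGroup.map q (FreeGroup.of e))⁻¹ _ (inv_mem ih)
        rw [map_inv, map_inv, inv_inv, mul_inv_rev, inv_inv] at h1
        have h2 : ∀ a b : FreeGroup E ⋊[permAut E B] B, a⁻¹ * (a * b⁻¹) * a = b⁻¹ * a := by
          intro a b
          group
        rw [h2] at h1
        exact h1
      | mul u v hu hv =>
        rw [map_mul, map_mul, map_mul, map_mul]
        have h1 := hconj (FreeGroup.map q u) _ hv
        have h2 := mul_mem hu h1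
        have h3 : ∀ a b c d : FreeGroup E ⋊[permAut E B] B,
            a * c⁻¹ * (c * (b * d⁻¹) * c⁻¹) = a * b * (c * d)⁻¹ := by
          intro a b c d
          group
        rw [h3] at h2
        exact h2
    intro x hx
    apply hM0
    have h1 : rG q hq x = 1 := hx
    have h2 : FreeGroup.map q x.left = 1 := congrArg SemidirectProduct.left h1
    have h3 : ρ x.right = 1 := congrArg SemidirectProduct.right h1
    have h4 := hword x.left
    rw [h2, map_one, map_one, inv_one, mul_one] at h4
    have h5 := mul_mem h4 (hker _ h3)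
    rwa [SemidirectProduct.inl_left_mul_inr_right] at h5
  univ H _ f := by
    have hex : ∀ w : FreeGroup E', ∃ φ : ρ.ker →* H, ∀ y p (h : s y * ι p * (s y)⁻¹ ∈ ρ.ker),
        φ ⟨_, h⟩ = f ⟨w, y⟩ p := fun w => h.univ H fun y => f ⟨w, y⟩
    choose φ hφ using hex
    obtain ⟨Ψ, hΨ1, hΨ2, hΨ3⟩ := exists_psi q σ hq hσ hfib hfree φ
    have hright : ∀ x : FreeGroup E ⋊[permAut E ρ.ker] ρ.ker,
        (Ψ x).right = FreeGroup.map q x.left := by
      intro x
      have h1 : ∀ u : FreeGroup E, (Ψ (SemidirectProduct.inl u)).right = FreeGroup.map q u := by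
        intro u
        have h2 : (SemidirectProduct.rightHom.comp (Ψ.comp SemidirectProduct.inl)) =
            FreeGroup.map q := by
          ext e
          rw [FreeGroup.map.of]
          exact hΨ3 e
        exact DFunLike.congr_fun h2 u
      conv_lhs => rw [← SemidirectProduct.inl_left_mul_inr_right x]
      rw [map_mul, SemidirectProduct.mul_right, h1, hΨ1, psiN_apply, SemidirectProduct.right_inl,
        mul_one]
    have hright1 : ∀ x : (rG q hq).ker, (Ψ (jN q hq x)).right = 1 := by
      intro x
      rw [hright]
      have h1 : rG q hq x.1 = 1 := x.2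
      exact congrArg SemidirectProduct.left h1
    refine ⟨MonoidHom.mk' (fun x => (Ψ (jN q hq x)).left 1) ?_, ?_⟩
    · intro x y
      show (Ψ (jN q hq (x * y))).left 1 = (Ψ (jN q hq x)).left 1 * (Ψ (jN q hq y)).left 1
      rw [map_mul, map_mul, SemidirectProduct.mul_left, hright1, map_one]
      rfl
    · intro x p hx
      show (Ψ (jN q hq ⟨_, hx⟩)).left 1 = f x p
      have hn : s x.right * ι p * (s x.right)⁻¹ ∈ ρ.ker := by
        rw [MonoidHom.mem_ker, map_mul, map_mul, h.ker, mul_one, map_inv, mul_inv_cancel]
      have h1 : jN q hq ⟨_, hx⟩ = SemidirectProduct.inl (FreeGroup.map σ x.left) *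
          SemidirectProduct.inr ⟨_, hn⟩ * (SemidirectProduct.inl (FreeGroup.map σ x.left))⁻¹ := by
        have h2 : sG σ s x * (SemidirectProduct.inr.comp ι) p * (sG σ s x)⁻¹ =
            (SemidirectProduct.inl (FreeGroup.map σ x.left) *
            SemidirectProduct.inr (s x.right * ι p * (s x.right)⁻¹) *
            (SemidirectProduct.inl (FreeGroup.map σ x.left))⁻¹ :
              FreeGroup E ⋊[permAut E B] B) := by
          show SemidirectProduct.inl (FreeGroup.map σ x.left) * SemidirectProduct.inr (s x.right) *
            SemidirectProduct.inr (ι p) * (SemidirectProduct.inl (FreeGroup.map σ x.left) *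
            SemidirectProduct.inr (s x.right))⁻¹ = _
          rw [map_mul, map_mul, map_inv]
          group
        apply SemidirectProduct.ext
        · show (sG σ s x * (SemidirectProduct.inr.comp ι) p * (sG σ s x)⁻¹).left = _
          rw [h2]
          rfl
        · apply Subtype.ext
          show (sG σ s x * (SemidirectProduct.inr.comp ι) p * (sG σ s x)⁻¹).right = _
          rw [h2]
          rfl
      have h3 : ∀ w : FreeGroup E', Ψ (SemidirectProduct.inl (FreeGroup.map σ w)) =
          SemidirectProduct.inr w := by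
        intro w
        have h4 : (Ψ.comp SemidirectProduct.inl).comp (FreeGroup.map σ) =
            SemidirectProduct.inr := by
          ext1 e'
          show Ψ (SemidirectProduct.inl (FreeGroup.map σ (FreeGroup.of e'))) = _
          rw [FreeGroup.map.of, hΨ2]
        exact DFunLike.congr_fun h4 w
      rw [h1, map_mul, map_mul, map_inv, h3, hΨ1, psiN_apply, ← map_inv,
        ← SemidirectProduct.inl_aut, SemidirectProduct.left_inl, tra_apply, mul_one, inv_inv, hφ]

end step

end Q30.LS
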