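import Pool.Agent.Q30.LS.LS1

/-!
# Right-angled Artin groups of coverings of flag complexes
-/

set_option autoImplicit false

namespace Q30.LS

open Pool.Agent.Y110.FJ (ClosedE permAut)

/-- a flat connection on the flag complex of the graph `Λ`, with values in `P` -/
structure Flat {I P : Type} [Group P] (Λ : SimpleGraph I) (κ : I → I → P) : Prop where
  inv : ∀ i j, Λ.Adj i j → κ j i = (κ i j)⁻¹
  tri : ∀ i j k, Λ.Adj i j → Λ.Adj j k → Λ.Adj i k → κ i j * κ j k = κ i k

/-- `G` is generated by `P` and elements `t i`, with the relations that `t i` commutes with the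
conjugate of `t j` by `κ i j` if `i` and `j` are adjacent -/
structure IsVR {I P G : Type} [Group P] [Group G] (Λ : SimpleGraph I) (κ : I → I → P) (ι : P →* G)
    (t : I → G) : Prop where
  rel : ∀ i j, Λ.Adj i j → Commute (t i) (ι (κ i j) * t j * (ι (κ i j))⁻¹)
  gen : ∀ M : Subgroup G, (∀ p, ι p ∈ M) → (∀ i, t i ∈ M) → ∀ x, x ∈ M
  univ : ∀ (H : Type) [Group H] (f : P →* H) (u : I → H),
    (∀ i j, Λ.Adj i j → Commute (u i) (f (κ i j) * u j * (f (κ i j))⁻¹)) →
    ∃ φ : G →* H, (∀ p, φ (ι p) = f p) ∧ ∀ i, φ (t i) = u i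

/-- the data of the induction -/
structure Dat {I P G Q : Type} [Group P] [Group G] [Group Q] (Λ : SimpleGraph I) (κ : I → I → P)
    (ι : P →* G) (t : I → G) (τ : I → Q) (ρ : G →* Q) (s : Q → G) : Prop where
  vr : IsVR Λ κ ι t
  ra : IsVR (P := Unit) Λ (fun _ _ => 1) 1 τ
  im : ∀ i, ρ (t i) = τ i
  fpr : FPr ι ρ s
  mem : ∀ C : ∀ (G : Type) [Group G], Prop, ClosedE C → C Q

/-- existence of the data -/
def Ex (I : Type) : Prop := ∀ (P : Type) [Group P] (Λ : SimpleGraph I) (κ : I → I → P), Flat Λ κ →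
  ∃ (G Q : Type) (_ : Group G) (_ : Group Q) (ι : P →* G) (t : I → G) (τ : I → Q) (ρ : G →* Q)
    (s : Q → G), Dat Λ κ ι t τ ρ s

theorem ex_empty : Ex PEmpty := by
  intro P _ Λ κ _
  refine ⟨P, Unit, inferInstance, inferInstance, MonoidHom.id P, fun i => i.elim, fun i => i.elim,
    1, fun _ => 1, ?_, ?_, fun i => i.elim, ?_, ?_⟩
  · refine ⟨fun i => i.elim, fun M hM _ x => hM x, ?_⟩
    intro H _ f u _
    exact ⟨f, fun _ => rfl, fun i => i.elim⟩
  · refine ⟨fun i => i.elim, fun M hM _ x => hM x, ?_⟩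
    intro H _ f u _
    refine ⟨f, fun _ => ?_, fun i => i.elim⟩
    rfl
  · refine ⟨fun _ => rfl, fun _ => rfl, ?_, ?_⟩
    · intro M hM x _
      have h1 := hM 1 x
      rwa [one_mul, inv_one, mul_one] at h1
    · intro H _ f
      refine ⟨(f 1).comp (Subgroup.subtype _), ?_⟩
      intro x p h
      show f 1 (1 * p * 1⁻¹) = f x p
      rw [one_mul, inv_one, mul_one]
  · intro C hC
    refine hC.base.of_injective Unit (Multiplicative ℤ) 1 ?_ hC.base.int
    intro a b _
    rfl

theorem ex_equiv {I J : Type} (e : I ≃ J) (h : Ex I) : Ex J := by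
  intro P _ Λ κ hκ
  obtain ⟨G, Q, _, _, ι, t, τ, ρ, s, hD⟩ := h P (Λ.comap e) (fun i j => κ (e i) (e j))
    ⟨fun i j hij => hκ.inv _ _ hij, fun i j k h1 h2 h3 => hκ.tri _ _ _ h1 h2 h3⟩
  have key : ∀ {P G : Type} [Group P] [Group G] {κ : J → J → P} {ι : P →* G} {t : I → G},
      IsVR (Λ.comap e) (fun i j => κ (e i) (e j)) ι t → IsVR Λ κ ι (fun j => t (e.symm j)) := by
    intro P G _ _ κ ι t hv
    refine ⟨?_, ?_, ?_⟩
    · intro i j hij
      have h1 := hv.rel (e.symm i) (e.symm j) (by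
        show Λ.Adj (e (e.symm i)) (e (e.symm j))
        rwa [e.apply_symm_apply, e.apply_symm_apply])
      have h2 : κ (e (e.symm i)) (e (e.symm j)) = κ i j := by
        rw [e.apply_symm_apply, e.apply_symm_apply]
      have h3 : Commute (t (e.symm i)) (ι (κ (e (e.symm i)) (e (e.symm j))) * t (e.symm j) *
        (ι (κ (e (e.symm i)) (e (e.symm j))))⁻¹) := h1
      rwa [h2] at h3
    · intro M hM ht x
      refine hv.gen M hM (fun i => ?_) x
      have h1 := ht (e i)
      rwa [e.symm_apply_apply] at h1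
    · intro H _ f u hu
      obtain ⟨φ, h1, h2⟩ := hv.univ H f (fun i => u (e i)) fun i j hij => hu _ _ hij
      refine ⟨φ, h1, fun j => ?_⟩
      rw [h2, e.apply_symm_apply]
  exact ⟨G, Q, inferInstance, inferInstance, ι, fun j => t (e.symm j), fun j => τ (e.symm j), ρ, s,
    key hD.vr, key hD.ra, fun j => hD.im _, hD.fpr, hD.mem⟩

section option

variable {J P G : Type} [Group P] [Group G] {Λ : SimpleGraph (Option J)}
  {κ : Option J → Option J → P} (hκ : Flat Λ κ)

/-- the subgroup centralized by the new generator -/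
def lk (Λ : SimpleGraph (Option J)) (κ : Option J → Option J → P) (ι : P →* G) (t : J → G) :
    Subgroup G :=
  Subgroup.closure {x | ∃ j, Λ.Adj none (some j) ∧
    x = ι (κ none (some j)) * t j * (ι (κ none (some j)))⁻¹}

variable {ι : P →* G} {t : J → G}

include hκ in
/-- adding a generator -/
theorem vr_option (hv : IsVR (Λ.comap some) (fun i j => κ (some i) (some j)) ι t)
    (t' : Option J → FreeGroup (G ⧸ lk Λ κ ι t) ⋊[permAut (G ⧸ lk Λ κ ι t) G] G)
    (h0 : t' none = SemidirectProduct.inl (FreeGroup.of ((1 : G) : G ⧸ lk Λ κ ι t)))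
    (hs : ∀ j, t' (some j) = SemidirectProduct.inr (t j)) :
    IsVR Λ κ (SemidirectProduct.inr.comp ι) t' := by
  have hcomm : ∀ k ∈ lk Λ κ ι t, Commute (t' none) (SemidirectProduct.inr k) := by
    intro k hk
    have h1 : (SemidirectProduct.inl (permAut (G ⧸ lk Λ κ ι t) G k
        (FreeGroup.of ((1 : G) : G ⧸ lk Λ κ ι t))) :
        FreeGroup (G ⧸ lk Λ κ ι t) ⋊[permAut (G ⧸ lk Λ κ ι t) G] G) =
        SemidirectProduct.inl (FreeGroup.of ((1 : G) : G ⧸ lk Λ κ ι t)) := by
      rw [permAut_of]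
      congr 2
      show ((k * 1 : G) : G ⧸ lk Λ κ ι t) = ((1 : G) : G ⧸ lk Λ κ ι t)
      rw [QuotientGroup.eq, mul_one, mul_one]
      exact inv_mem hk
    rw [SemidirectProduct.inl_aut] at h1
    rw [h0]
    show _ * _ = _ * _
    rw [map_inv, mul_inv_eq_iff_eq_mul] at h1
    exact h1.symm
  refine ⟨?_, ?_, ?_⟩
  · intro i j hij
    cases i with
    | none =>
      cases j with
      | none => exact absurd hij (Λ.loopless.irrefl _)
      | some j =>
        rw [hs]
        have h1 := hcomm (ι (κ none (some j)) * t j * (ι (κ none (some j)))⁻¹)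
          (Subgroup.subset_closure ⟨j, hij, rfl⟩)
        rw [map_mul, map_mul, map_inv] at h1
        exact h1
    | some i =>
      cases j with
      | none =>
        rw [hs]
        have h1 := hcomm (ι (κ none (some i)) * t i * (ι (κ none (some i)))⁻¹)
          (Subgroup.subset_closure ⟨i, hij.symm, rfl⟩)
        have h2 : κ (some i) none = (κ none (some i))⁻¹ := hκ.inv _ _ hij.symm
        rw [h2]
        show Commute (SemidirectProduct.inr (t i)) (SemidirectProduct.inr (ι (κ none (some i))⁻¹) *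
          t' none * (SemidirectProduct.inr (ι (κ none (some i))⁻¹))⁻¹)
        have h3 := (Commute.conj_iff (SemidirectProduct.inr (ι (κ none (some i))⁻¹))).2 h1.symm
        have h4 : ι (κ none (some i))⁻¹ * (ι (κ none (some i)) * t i *
            (ι (κ none (some i)))⁻¹) * (ι (κ none (some i))⁻¹)⁻¹ = t i := by
          rw [map_inv]
          group
        have h5 : (SemidirectProduct.inr (ι (κ none (some i))⁻¹) :
            FreeGroup (G ⧸ lk Λ κ ι t) ⋊[permAut (G ⧸ lk Λ κ ι t) G] G) *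
            SemidirectProduct.inr (ι (κ none (some i)) * t i * (ι (κ none (some i)))⁻¹) *
            (SemidirectProduct.inr (ι (κ none (some i))⁻¹))⁻¹ = SemidirectProduct.inr (t i) := by
          conv_rhs => rw [← h4, map_mul, map_mul]
          congr 1
        rw [h5] at h3
        exact h3
      | some j =>
        rw [hs, hs]
        have h1 := hv.rel i j hij
        have h2 := h1.map (SemidirectProduct.inr :
          G →* FreeGroup (G ⧸ lk Λ κ ι t) ⋊[permAut (G ⧸ lk Λ κ ι t) G] G)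
        rw [map_mul, map_mul, map_inv] at h2
        exact h2
  · intro M hM ht x
    have h1 : ∀ g : G, (SemidirectProduct.inr g :
        FreeGroup (G ⧸ lk Λ κ ι t) ⋊[permAut (G ⧸ lk Λ κ ι t) G] G) ∈ M := by
      intro g
      refine hv.gen (M.comap SemidirectProduct.inr) (fun p => hM p) (fun j => ?_) g
      show SemidirectProduct.inr (t j) ∈ M
      rw [← hs]
      exact ht _
    have h2 : ∀ u : FreeGroup (G ⧸ lk Λ κ ι t), (SemidirectProduct.inl u :
        FreeGroup (G ⧸ lk Λ κ ι t) ⋊[permAut (G ⧸ lk Λ κ ι t) G] G) ∈ M := by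
      have h3 : ∀ e : G ⧸ lk Λ κ ι t, (SemidirectProduct.inl (FreeGroup.of e) :
          FreeGroup (G ⧸ lk Λ κ ι t) ⋊[permAut (G ⧸ lk Λ κ ι t) G] G) ∈ M := by
        intro e
        obtain ⟨g, rfl⟩ := QuotientGroup.mk_surjective e
        have h4 : (FreeGroup.of ((g : G) : G ⧸ lk Λ κ ι t)) = permAut (G ⧸ lk Λ κ ι t) G g
            (FreeGroup.of ((1 : G) : G ⧸ lk Λ κ ι t)) := by
          rw [permAut_of]
          congr 1
          show ((g : G) : G ⧸ lk Λ κ ι t) = ((g * 1 : G) : G ⧸ lk Λ κ ι t)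
          rw [mul_one]
        rw [h4, SemidirectProduct.inl_aut, ← h0]
        exact mul_mem (mul_mem (h1 g) (ht none)) (h1 _)
      intro u
      induction u using FreeGroup.induction_on with
      | C1 =>
        rw [map_one]
        exact one_mem _
      | of e => exact h3 e
      | inv_of e _ =>
        rw [map_inv]
        exact inv_mem (h3 e)
      | mul u v hu hv =>
        rw [map_mul]
        exact mul_mem hu hv
    rw [← SemidirectProduct.inl_left_mul_inr_right x]
    exact mul_mem (h2 _) (h1 _)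
  · intro H _ f u hu
    obtain ⟨φ, hφ1, hφ2⟩ := hv.univ H f (fun j => u (some j)) fun i j hij => hu _ _ hij
    have hk : ∀ k ∈ lk Λ κ ι t, Commute (u none) (φ k) := by
      intro k hk
      have h1 : lk Λ κ ι t ≤ (Subgroup.centralizer {u none}).comap φ := by
        unfold lk
        rw [Subgroup.closure_le]
        rintro _ ⟨j, hj, rfl⟩
        show φ _ ∈ Subgroup.centralizer {u none}
        rw [Subgroup.mem_centralizer_singleton_iff, map_mul, map_mul, map_inv, hφ1, hφ2]
        exact (hu none (some j) hj).symm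
      have h2 := h1 hk
      have h3 : φ k ∈ Subgroup.centralizer {u none} := h2
      rw [Subgroup.mem_centralizer_singleton_iff] at h3
      exact h3.symm
    let F0 : G ⧸ lk Λ κ ι t → H := fun e => Quotient.liftOn' e
      (fun g => φ g * u none * (φ g)⁻¹) (by
        intro a b hab
        rw [QuotientGroup.leftRel_apply] at hab
        have h1 := hk _ hab
        rw [map_mul, map_inv] at h1
        show φ a * u none * (φ a)⁻¹ = φ b * u none * (φ b)⁻¹
        have h2 : φ b * u none * (φ b)⁻¹ = φ a * (((φ a)⁻¹ * φ b) * u none) * (φ b)⁻¹ := by group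
        rw [h2, ← h1.eq]
        group)
    have hF0 : ∀ g : G, F0 ((g : G) : G ⧸ lk Λ κ ι t) = φ g * u none * (φ g)⁻¹ := fun _ => rfl
    refine ⟨SemidirectProduct.lift (FreeGroup.lift F0) φ ?_, ?_, ?_⟩
    · intro g
      ext1 e
      obtain ⟨a, rfl⟩ := QuotientGroup.mk_surjective e
      show FreeGroup.lift F0 (permAut (G ⧸ lk Λ κ ι t) G g (FreeGroup.of _)) =
        φ g * FreeGroup.lift F0 (FreeGroup.of _) * (φ g)⁻¹
      rw [permAut_of, FreeGroup.lift_apply_of, FreeGroup.lift_apply_of]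
      show F0 ((g * a : G) : G ⧸ lk Λ κ ι t) = φ g * F0 ((a : G) : G ⧸ lk Λ κ ι t) * (φ g)⁻¹
      rw [hF0, hF0, map_mul]
      group
    · intro p
      show SemidirectProduct.lift _ _ _ (SemidirectProduct.inr (ι p)) = f p
      rw [SemidirectProduct.lift_inr, hφ1]
    · intro i
      cases i with
      | none =>
        rw [h0, SemidirectProduct.lift_inl, FreeGroup.lift_apply_of, hF0, map_one, one_mul, inv_one,
          mul_one]
      | some j =>
        rw [hs, SemidirectProduct.lift_inr, hφ2]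

end option

theorem ex_option {J : Type} (h : Ex J) : Ex (Option J) := by
  intro P _ Λ κ hκ
  obtain ⟨B, B', _, _, ι, t, τ, ρ, s, hD⟩ := h P (Λ.comap some) (fun i j => κ (some i) (some j))
    ⟨fun i j hij => hκ.inv _ _ hij, fun i j k h1 h2 h3 => hκ.tri _ _ _ h1 h2 h3⟩
  obtain ⟨K, hK⟩ : ∃ K : Subgroup B, K = lk Λ κ ι t := ⟨_, rfl⟩
  obtain ⟨K', hK'⟩ : ∃ K' : Subgroup B', K' = lk (P := Unit) Λ (fun _ _ => 1) 1 τ := ⟨_, rfl⟩
  have him : ∀ j, ρ (ι (κ none (some j)) * t j * (ι (κ none (some j)))⁻¹) = τ j := by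
    intro j
    rw [map_mul, map_mul, map_inv, hD.fpr.ker, hD.im, one_mul, inv_one, mul_one]
  have hKmap : K.map ρ = K' := by
    rw [hK, hK']
    unfold lk
    rw [MonoidHom.map_closure]
    congr 1
    ext x
    constructor
    · rintro ⟨_, ⟨j, hj, rfl⟩, rfl⟩
      refine ⟨j, hj, ?_⟩
      rw [him]
      show τ j = 1 * τ j * 1⁻¹
      rw [one_mul, inv_one, mul_one]
    · rintro ⟨j, hj, rfl⟩
      refine ⟨_, ⟨j, hj, rfl⟩, ?_⟩
      rw [him]
      show τ j = 1 * τ j * 1⁻¹
      rw [one_mul, inv_one, mul_one]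
  -- the homomorphism is injective on `K`
  have hKinj : ∀ k ∈ K, ρ k = 1 → k = 1 := by
    classical
    obtain ⟨ψ, -, hψ⟩ := hD.ra.univ B 1 (fun j => if Λ.Adj none (some j) then
      ι (κ none (some j)) * t j * (ι (κ none (some j)))⁻¹ else 1) (by
        intro i j hij
        show Commute _ (1 * _ * 1⁻¹)
        rw [one_mul, inv_one, mul_one]
        by_cases hi : Λ.Adj none (some i)
        · by_cases hj : Λ.Adj none (some j)
          · rw [if_pos hi, if_pos hj]
            have h1 := hD.vr.rel i j hij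
            have h2 := (Commute.conj_iff (ι (κ none (some i)))).2 h1
            have h3 : ι (κ none (some i)) * (ι (κ (some i) (some j)) * t j *
                (ι (κ (some i) (some j)))⁻¹) * (ι (κ none (some i)))⁻¹ =
                ι (κ none (some j)) * t j * (ι (κ none (some j)))⁻¹ := by
              rw [← hκ.tri none (some i) (some j) hi hij hj, map_mul]
              group
            rw [h3] at h2
            exact h2
          · rw [if_neg hj]
            exact Commute.one_right _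
        · rw [if_neg hi]
          exact Commute.one_left _)
    intro k hk hρ
    have h1 : K ≤ (ψ.comp ρ).eqLocus (MonoidHom.id B) := by
      rw [hK]
      unfold lk
      rw [Subgroup.closure_le]
      rintro _ ⟨j, hj, rfl⟩
      show ψ (ρ _) = _
      rw [him, hψ, if_pos hj]
      rfl
    have h2 : ψ (ρ k) = k := h1 hk
    rw [← h2, hρ, map_one]
  let q : B ⧸ K → B' ⧸ K' := fun e => Quotient.liftOn' e (fun b => ((ρ b : B') : B' ⧸ K')) (by
    intro a b hab
    rw [QuotientGroup.leftRel_apply] at hab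
    show ((ρ a : B') : B' ⧸ K') = ((ρ b : B') : B' ⧸ K')
    rw [QuotientGroup.eq, ← map_inv, ← map_mul, ← hKmap]
    exact ⟨_, hab, rfl⟩)
  have hqmk : ∀ b : B, q ((b : B) : B ⧸ K) = ((ρ b : B') : B' ⧸ K') := fun _ => rfl
  have hq : ∀ (b : B) (e : B ⧸ K), q (b • e) = ρ b • q e := by
    intro b e
    obtain ⟨a, rfl⟩ := QuotientGroup.mk_surjective e
    show q ((b * a : B) : B ⧸ K) = ((ρ b * ρ a : B') : B' ⧸ K')
    rw [hqmk, map_mul]
  have hsurj : ∀ e' : B' ⧸ K', ∃ e : B ⧸ K, q e = e' := by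
    intro e'
    obtain ⟨y, rfl⟩ := QuotientGroup.mk_surjective e'
    exact ⟨((s y : B) : B ⧸ K), by rw [hqmk, hD.fpr.sec]⟩
  choose σ hσ using hsurj
  have hfib : ∀ e e' : B ⧸ K, q e = q e' → ∃ b : B, ρ b = 1 ∧ b • e = e' := by
    intro e e' hee
    obtain ⟨a, rfl⟩ := QuotientGroup.mk_surjective e
    obtain ⟨a', rfl⟩ := QuotientGroup.mk_surjective e'
    rw [hqmk, hqmk, QuotientGroup.eq, ← hKmap] at hee
    obtain ⟨k, hk, hkk⟩ := hee
    refine ⟨a' * (a * k)⁻¹, ?_, ?_⟩
    · rw [map_mul, map_inv, map_mul, hkk]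
      group
    · show ((a' * (a * k)⁻¹ * a : B) : B ⧸ K) = ((a' : B) : B ⧸ K)
      rw [QuotientGroup.eq]
      have : (a' * (a * k)⁻¹ * a)⁻¹ * a' = a⁻¹ * a * k := by group
      rw [this, inv_mul_cancel, one_mul]
      exact hk
  have hfree : ∀ (b : B) (e : B ⧸ K), ρ b = 1 → b • e = e → b = 1 := by
    intro b e hb hbe
    obtain ⟨a, rfl⟩ := QuotientGroup.mk_surjective e
    have h1 : ((b * a : B) : B ⧸ K) = ((a : B) : B ⧸ K) := hbe
    rw [eq_comm, QuotientGroup.eq] at h1
    have h2 := hKinj _ h1 (by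
      rw [map_mul, map_mul, map_inv, hb, one_mul, inv_mul_cancel])
    have h3 : b = a * (a⁻¹ * (b * a)) * a⁻¹ := by group
    rw [h3, h2]
    group
  have hst := step q σ hq hσ hfib hfree hD.fpr
  subst hK
  subst hK'
  refine ⟨_, _, inferInstance, inferInstance, _,
    fun i => i.elim (SemidirectProduct.inl (FreeGroup.of ((1 : B) : B ⧸ lk Λ κ ι t)))
      (fun j => SemidirectProduct.inr (t j)),
    fun i => i.elim (SemidirectProduct.inl (FreeGroup.of ((1 : B') : B' ⧸ lk (P := Unit) Λ
      (fun _ _ => 1) 1 τ))) (fun j => SemidirectProduct.inr (τ j)),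
    _, _, vr_option hκ hD.vr _ rfl (fun _ => rfl), ?_, ?_, hst, ?_⟩
  · have h1 := vr_option (P := Unit) (Λ := Λ) (κ := fun _ _ => 1) (ι := (1 : Unit →* B')) (t := τ)
      ⟨fun _ _ _ => rfl, fun _ _ _ _ _ _ => rfl⟩ hD.ra (fun i => i.elim (SemidirectProduct.inl
        (FreeGroup.of ((1 : B') : B' ⧸ lk (P := Unit) Λ (fun _ _ => 1) 1 τ)))
        (fun j => SemidirectProduct.inr (τ j))) rfl (fun _ => rfl)
    have h2 : (SemidirectProduct.inr : B' →* FreeGroup (B' ⧸ lk (P := Unit) Λ (fun _ _ => 1) 1 τ)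
        ⋊[permAut (B' ⧸ lk (P := Unit) Λ (fun _ _ => 1) 1 τ) B'] B').comp (1 : Unit →* B') = 1 := by
      ext x
      · rfl
      · rfl
    rw [h2] at h1
    exact h1
  · intro i
    cases i with
    | none =>
      show rG q hq (SemidirectProduct.inl (FreeGroup.of _)) = SemidirectProduct.inl (FreeGroup.of _)
      unfold rG
      rw [SemidirectProduct.map_inl, FreeGroup.map.of]
      congr 2
      rw [hqmk, map_one]
    | some j =>
      show rG q hq (SemidirectProduct.inr (t j)) = SemidirectProduct.inr (τ j)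
      unfold rG
      rw [SemidirectProduct.map_inr, hD.im]
  · intro C hC
    exact Pool.Agent.Y961.FJ.t_perm Pool.Agent.Y529.FJ.t_ext C hC _ _ (hD.mem C hC)

theorem ex_fin (I : Type) [Finite I] : Ex I := by
  induction I using Finite.induction_empty_option with
  | of_equiv e h => exact ex_equiv e h
  | h_empty => exact ex_empty
  | h_option h => exact ex_option h

/-- the data for a given group -/
theorem dat_of {I P G : Type} [Group P] [Group G] [Finite I] {Λ : SimpleGraph I} {κ : I → I → P}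
    (hκ : Flat Λ κ) {ι : P →* G} {t : I → G} (hv : IsVR Λ κ ι t) :
    ∃ (Q : Type) (_ : Group Q) (τ : I → Q) (ρ : G →* Q) (s : Q → G), Dat Λ κ ι t τ ρ s := by
  obtain ⟨G0, Q, _, _, ι0, t0, τ, ρ, s, hD⟩ := ex_fin I P Λ κ hκ
  obtain ⟨φ, hφ1, hφ2⟩ := hv.univ G0 ι0 t0 hD.vr.rel
  obtain ⟨ψ, hψ1, hψ2⟩ := hD.vr.univ G ι t hv.rel
  have h1 : ∀ x, ψ (φ x) = x := by
    intro x
    refine hv.gen ((ψ.comp φ).eqLocus (MonoidHom.id G)) ?_ ?_ x
    · intro p
      show ψ (φ (ι p)) = ι p
      rw [hφ1, hψ1]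
    · intro i
      show ψ (φ (t i)) = t i
      rw [hφ2, hψ2]
  have h2 : ∀ x, φ (ψ x) = x := by
    intro x
    refine hD.vr.gen ((φ.comp ψ).eqLocus (MonoidHom.id G0)) ?_ ?_ x
    · intro p
      show φ (ψ (ι0 p)) = ι0 p
      rw [hψ1, hφ1]
    · intro i
      show φ (ψ (t0 i)) = t0 i
      rw [hψ2, hφ2]
  refine ⟨Q, inferInstance, τ, ρ.comp φ, fun x => ψ (s x), hv, hD.ra, ?_, ?_, hD.mem⟩
  · intro i
    show ρ (φ (t i)) = τ i
    rw [hφ2, hD.im]
  · refine ⟨?_, ?_, ?_, ?_⟩
    · intro x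
      show ρ (φ (ψ (s x))) = x
      rw [h2, hD.fpr.sec]
    · intro p
      show ρ (φ (ι p)) = 1
      rw [hφ1, hD.fpr.ker]
    · intro M hM x hx
      have h3 := hD.fpr.gen (M.comap ψ) (by
        intro y p
        show ψ _ ∈ M
        rw [map_mul, map_mul, map_inv, hψ1]
        exact hM y p)
      have h4 : φ x ∈ ρ.ker := hx
      have h5 : ψ (φ x) ∈ M := h3 h4
      rwa [h1] at h5
    · intro H _ f
      obtain ⟨F, hF⟩ := hD.fpr.univ H f
      refine ⟨F.comp (MonoidHom.mk' (fun x : (ρ.comp φ).ker => (⟨φ x.1, x.2⟩ : ρ.ker)) ?_), ?_⟩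
      · intro a b
        apply Subtype.ext
        exact map_mul φ _ _
      · intro x p hx
        have h3 : s x * ι0 p * (s x)⁻¹ ∈ ρ.ker := by
          rw [MonoidHom.mem_ker, map_mul, map_mul, hD.fpr.ker, mul_one, map_inv, mul_inv_cancel]
        rw [← hF x p h3]
        show F ⟨φ (ψ (s x) * ι p * (ψ (s x))⁻¹), _⟩ = F ⟨s x * ι0 p * (s x)⁻¹, _⟩
        congr 1
        apply Subtype.ext
        show φ (ψ (s x) * ι p * (ψ (s x))⁻¹) = s x * ι0 p * (s x)⁻¹
        rw [map_mul, map_mul, map_inv, h2, hφ1]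

end Q30.LS
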