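import Pool.Agent.Q30.LS.LS3

/-!
# Infinite graphs
-/

set_option autoImplicit false

namespace Q30.LS

open Pool.Agent.Y110.FJ (ClosedE permAut)
open Q30.FJ (ClosedF)

variable {C : ∀ (G : Type) [Group G], Prop}

/-- the case of finite graphs -/
theorem fin_case (hC : ClosedF C) {I P G D : Type} [Group P] [Group G] [Group D] [Finite I]
    {Λ : SimpleGraph I} {κ : I → I → P} (hκ : Flat Λ κ) {ι : P →* G} {t : I → G}
    (hv : IsVR Λ κ ι t) {h : G →* D} (hι : ∀ p, h (ι p) = 1) (S : Set D) :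
    C (h.ker ⧸ Rs ι h S) ↔ (C P ∨ ∀ g, h g ∈ S) := by
  obtain ⟨Q, _, τ, ρ, s, hD⟩ := dat_of hκ hv
  constructor
  · intro hm
    by_contra hc
    push Not at hc
    obtain ⟨h1, g, hg⟩ := hc
    exact h1 (main_conv hD.fpr hι hC.base hm g hg)
  · rintro (hP | hall)
    · exact main_mem hD.fpr hι hC (hD.mem C hC.base) hP
    · exact main_all hD.fpr hι hC.base (hD.mem C hC.base) hall

section qmap

variable {P G1 G2 D : Type} [Group P] [Group G1] [Group G2] [Group D] {ι1 : P →* G1}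
  {ι2 : P →* G2} {h1 : G1 →* D} {h2 : G2 →* D} (a : G1 →* G2) (ha : ∀ x, h2 (a x) = h1 x)
  (hι : ∀ p, a (ι1 p) = ι2 p) (S : Set D)

/-- the map of the kernels -/
def kmap : h1.ker →* h2.ker :=
  (a.comp h1.ker.subtype).codRestrict h2.ker (fun x => by
    show h2 (a x.1) = 1
    rw [ha]
    exact x.2)

include hι in
theorem kmap_le : Rs ι1 h1 S ≤ (Rs ι2 h2 S).comap (kmap a ha) := by
  unfold Rs
  apply Subgroup.normalClosure_le_normal
  rintro x ⟨g, p, hg, hx⟩
  apply Subgroup.subset_normalClosure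
  refine ⟨a g, p, ?_, ?_⟩
  · rw [ha]
    exact hg
  · show a x.1 = _
    rw [hx, map_mul, map_mul, map_inv, hι]

/-- the map of the quotients -/
def qmap : h1.ker ⧸ Rs ι1 h1 S →* h2.ker ⧸ Rs ι2 h2 S :=
  QuotientGroup.map _ _ (kmap a ha) (kmap_le a ha hι S)

theorem qmap_mk (x : h1.ker) : qmap a ha hι S (QuotientGroup.mk' _ x) =
    QuotientGroup.mk' _ (kmap a ha x) := rfl

end qmap

section inf

variable {I P G D : Type} [Group P] [Group G] [Group D] {Λ : SimpleGraph I} {κ : I → I → P}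
  {ι : P →* G} {t : I → G}

/-- the subgroup of a finite set -/
def KW (ι : P →* G) (t : I → G) (W : Finset I) : Subgroup G :=
  Subgroup.closure (Set.range ι ∪ t '' (W : Set I))

theorem KW_mono {W W' : Finset I} (h : W ≤ W') : KW ι t W ≤ KW ι t W' :=
  Subgroup.closure_mono (Set.union_subset_union_right _ (Set.image_mono (Finset.coe_subset.2 h)))

/-- the embedding of `P` -/
def ιW (ι : P →* G) (t : I → G) (W : Finset I) : P →* KW ι t W :=
  ι.codRestrict _ (fun p => Subgroup.subset_closure (Or.inl ⟨p, rfl⟩))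

/-- the generators -/
def tW (ι : P →* G) (t : I → G) (W : Finset I) (i : W) : KW ι t W :=
  ⟨t i.1, Subgroup.subset_closure (Or.inr ⟨i.1, i.2, rfl⟩)⟩

theorem vrW (hv : IsVR Λ κ ι t) (W : Finset I) :
    IsVR (Λ.comap (Subtype.val : W → I)) (fun i j => κ i.1 j.1) (ιW ι t W) (tW ι t W) := by
  classical
  refine ⟨?_, ?_, ?_⟩
  · intro i j hij
    apply Subtype.ext
    exact hv.rel i.1 j.1 hij
  · intro M hM ht x
    have h1 : KW ι t W ≤ M.map (KW ι t W).subtype := by
      unfold KW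
      rw [Subgroup.closure_le]
      rintro _ (⟨p, rfl⟩ | ⟨i, hi, rfl⟩)
      · exact ⟨_, hM p, rfl⟩
      · exact ⟨_, ht ⟨i, hi⟩, rfl⟩
    obtain ⟨y, hy, hyx⟩ := h1 x.2
    have h2 : y = x := Subtype.ext hyx
    rw [← h2]
    exact hy
  · intro H _ f u hu
    obtain ⟨φ, h1, h2⟩ := hv.univ H f (fun i => if hi : i ∈ W then u ⟨i, hi⟩ else 1) (by
      intro i j hij
      by_cases hi : i ∈ W
      · by_cases hj : j ∈ W
        · rw [dif_pos hi, dif_pos hj]
          exact hu ⟨i, hi⟩ ⟨j, hj⟩ hij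
        · rw [dif_neg hj, mul_one, mul_inv_cancel]
          exact Commute.one_right _
      · rw [dif_neg hi]
        exact Commute.one_left _)
    refine ⟨φ.comp (KW ι t W).subtype, fun p => h1 p, fun i => ?_⟩
    show φ (t i.1) = u i
    rw [h2, dif_pos i.2]

theorem exists_KW (hv : IsVR Λ κ ι t) (g : G) : ∃ W : Finset I, g ∈ KW ι t W := by
  classical
  refine hv.gen
    { carrier := {x | ∃ W : Finset I, x ∈ KW ι t W}
      one_mem' := ⟨∅, one_mem _⟩
      mul_mem' := by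
        rintro x y ⟨W, hx⟩ ⟨W', hy⟩
        exact ⟨W ∪ W', mul_mem (KW_mono Finset.subset_union_left hx)
          (KW_mono Finset.subset_union_right hy)⟩
      inv_mem' := by
        rintro x ⟨W, hx⟩
        exact ⟨W, inv_mem hx⟩ } ?_ ?_ g
  · intro p
    exact ⟨∅, Subgroup.subset_closure (Or.inl ⟨p, rfl⟩)⟩
  · intro i
    exact ⟨{i}, Subgroup.subset_closure (Or.inr ⟨i, by simp, rfl⟩)⟩

/-- **the main theorem** -/
theorem inf_case (hC : ClosedF C) (hκ : Flat Λ κ) (hv : IsVR Λ κ ι t) {h : G →* D}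
    (hι : ∀ p, h (ι p) = 1) (S : Set D) :
    C (h.ker ⧸ Rs ι h S) ↔ (C P ∨ ∀ g, h g ∈ S) := by
  classical
  have hfin : ∀ W : Finset I, C ((h.comp (KW ι t W).subtype).ker ⧸
      Rs (ιW ι t W) (h.comp (KW ι t W).subtype) S) ↔ (C P ∨ ∀ g : KW ι t W, h g.1 ∈ S) := by
    intro W
    exact fin_case hC (Λ := Λ.comap (Subtype.val : W → I)) (κ := fun i j => κ i.1 j.1)
      ⟨fun i j hij => hκ.inv _ _ hij, fun i j k h1 h2 h3 => hκ.tri _ _ _ h1 h2 h3⟩ (vrW hv W)
      (h := h.comp (KW ι t W).subtype) (fun p => hι p) S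
  have hkey : ∀ y : h.ker, y ∈ Rs ι h S → ∃ (W : Finset I)
      (u : (h.comp (KW ι t W).subtype).ker), u ∈ Rs (ιW ι t W) (h.comp (KW ι t W).subtype) S ∧
      (u.1.1 : G) = y.1 := by
    have hinc : ∀ {W W' : Finset I} (hW : W ≤ W') (u : (h.comp (KW ι t W).subtype).ker),
        u ∈ Rs (ιW ι t W) (h.comp (KW ι t W).subtype) S →
        ∃ u' : (h.comp (KW ι t W').subtype).ker,
          u' ∈ Rs (ιW ι t W') (h.comp (KW ι t W').subtype) S ∧ u'.1.1 = u.1.1 := by
      intro W W' hW u hu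
      have h1 := kmap_le (ι1 := ιW ι t W) (ι2 := ιW ι t W') (h1 := h.comp (KW ι t W).subtype)
        (h2 := h.comp (KW ι t W').subtype) (Subgroup.inclusion (KW_mono hW)) (fun _ => rfl)
        (fun _ => rfl) S hu
      exact ⟨_, h1, rfl⟩
    let Z : Subgroup h.ker :=
      { carrier := {y | ∃ (W : Finset I) (u : (h.comp (KW ι t W).subtype).ker),
          u ∈ Rs (ιW ι t W) (h.comp (KW ι t W).subtype) S ∧ (u.1.1 : G) = y.1}
        one_mem' := ⟨∅, 1, one_mem _, rfl⟩
        mul_mem' := by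
          rintro x y ⟨W, u, hu, hux⟩ ⟨W', v, hv, hvy⟩
          obtain ⟨u', hu', hu'x⟩ := hinc (Finset.subset_union_left : W ≤ W ∪ W') u hu
          obtain ⟨v', hv', hv'y⟩ := hinc (Finset.subset_union_right : W' ≤ W ∪ W') v hv
          refine ⟨W ∪ W', u' * v', mul_mem hu' hv', ?_⟩
          show u'.1.1 * v'.1.1 = x.1 * y.1
          rw [hu'x, hv'y, hux, hvy]
        inv_mem' := by
          rintro x ⟨W, u, hu, hux⟩
          refine ⟨W, u⁻¹, inv_mem hu, ?_⟩
          show (u.1.1)⁻¹ = (x.1)⁻¹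
          rw [hux] }
    have hZ : Rs ι h S ≤ Z := by
      apply Rs_le
      rintro x ⟨g, p, hg, hx⟩
      obtain ⟨W, hgW⟩ := exists_KW hv g
      have hp : ι p ∈ KW ι t W := Subgroup.subset_closure (Or.inl ⟨p, rfl⟩)
      have hxW : x.1 ∈ KW ι t W := by
        rw [hx]
        exact mul_mem (mul_mem hgW hp) (inv_mem hgW)
      refine ⟨W, ⟨⟨x.1, hxW⟩, x.2⟩, ?_, rfl⟩
      apply Subgroup.subset_normalClosure
      refine ⟨⟨g, hgW⟩, p, hg, ?_⟩
      apply Subtype.ext
      exact hx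
    intro y hy
    exact hZ hy
  constructor
  · intro hm
    by_contra hc
    push Not at hc
    obtain ⟨hP, g, hg⟩ := hc
    -- `P` embeds
    obtain ⟨W0, hgW⟩ := exists_KW hv g
    have hemb : Function.Injective ((QuotientGroup.mk' (Rs ι h S)).comp (MonoidHom.mk' (fun p =>
        (⟨g * ι p * g⁻¹, by
          rw [MonoidHom.mem_ker, map_mul, map_mul, hι, mul_one, map_inv, mul_inv_cancel]⟩ :
          h.ker)) (by
        intro a b
        apply Subtype.ext
        show g * ι (a * b) * g⁻¹ = (g * ι a * g⁻¹) * (g * ι b * g⁻¹)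
        rw [map_mul]
        group))) := by
      rw [injective_iff_map_eq_one]
      intro p hp
      have h1 : (⟨g * ι p * g⁻¹, by
          rw [MonoidHom.mem_ker, map_mul, map_mul, hι, mul_one, map_inv, mul_inv_cancel]⟩ :
          h.ker) ∈ Rs ι h S := by
        rw [← QuotientGroup.eq_one_iff]
        exact hp
      obtain ⟨W1, u, hu, hup⟩ := hkey _ h1
      -- the finite case for the union
      have hgW' : g ∈ KW ι t (W0 ∪ W1) := KW_mono Finset.subset_union_left hgW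
      have hu' := kmap_le (ι1 := ιW ι t W1) (ι2 := ιW ι t (W0 ∪ W1))
        (h1 := h.comp (KW ι t W1).subtype) (h2 := h.comp (KW ι t (W0 ∪ W1)).subtype)
        (Subgroup.inclusion (KW_mono Finset.subset_union_right)) (fun _ => rfl)
        (fun _ => rfl) S hu
      obtain ⟨Q, _, τ, ρ, s, hD⟩ := dat_of (Λ := Λ.comap (Subtype.val : ↥(W0 ∪ W1) → I))
        (κ := fun i j => κ i.1 j.1)
        ⟨fun i j hij => hκ.inv _ _ hij, fun i j k h1 h2 h3 => hκ.tri _ _ _ h1 h2 h3⟩
        (vrW hv (W0 ∪ W1))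
      have hιW : ∀ p, (h.comp (KW ι t (W0 ∪ W1)).subtype) (ιW ι t (W0 ∪ W1) p) = 1 := fun p => hι p
      have hx : (h.comp (KW ι t (W0 ∪ W1)).subtype) (s (ρ ⟨g, hgW'⟩)) ∉ S := by
        rw [← h_eq hD.fpr hιW]
        exact hg
      have h2 : av hD.fpr hιW S (ρ ⟨g, hgW'⟩) p = 1 := by
        rw [av_eq, QuotientGroup.mk'_apply, QuotientGroup.eq_one_iff]
        have h3 : (s (ρ ⟨g, hgW'⟩)) * (⟨g, hgW'⟩ : KW ι t (W0 ∪ W1))⁻¹ ∈ ρ.ker := by
          rw [MonoidHom.mem_ker, map_mul, map_inv, hD.fpr.sec, mul_inv_cancel]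
        have h4 := (inferInstance : (Rs (ιW ι t (W0 ∪ W1))
          (h.comp (KW ι t (W0 ∪ W1)).subtype) S).Normal).conj_mem _ hu'
          ⟨_, ker_le hD.fpr hιW h3⟩
        convert h4 using 1
        apply Subtype.ext
        apply Subtype.ext
        show ((s (ρ ⟨g, hgW'⟩)).1 * ι p * (s (ρ ⟨g, hgW'⟩)).1⁻¹) =
          ((s (ρ ⟨g, hgW'⟩)).1 * g⁻¹) * u.1.1 * ((s (ρ ⟨g, hgW'⟩)).1 * g⁻¹)⁻¹
        rw [hup]
        show _ = ((s (ρ ⟨g, hgW'⟩)).1 * g⁻¹) * (g * ι p * g⁻¹) *
          ((s (ρ ⟨g, hgW'⟩)).1 * g⁻¹)⁻¹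
        group
      exact (injective_iff_map_eq_one _).1 (av_inj hD.fpr hιW _ hx) p h2
    exact hP (hC.base.base.of_injective _ _ _ hemb hm)
  · intro hP
    have hmem : ∀ W : Finset I, C ((h.comp (KW ι t W).subtype).ker ⧸
        Rs (ιW ι t W) (h.comp (KW ι t W).subtype) S) := by
      intro W
      rw [hfin W]
      rcases hP with hP | hP
      · exact Or.inl hP
      · exact Or.inr fun g => hP g.1
    refine hC.base.base.colim (Finset I) (fun i j => ⟨i ∪ j, Finset.subset_union_left,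
      Finset.subset_union_right⟩)
      (fun W => (h.comp (KW ι t W).subtype).ker ⧸
        Rs (ιW ι t W) (h.comp (KW ι t W).subtype) S)
      (fun W W' hW => qmap (h1 := h.comp (KW ι t W).subtype) (h2 := h.comp (KW ι t W').subtype)
        (ι1 := ιW ι t W) (ι2 := ιW ι t W') (Subgroup.inclusion (KW_mono hW)) (fun _ => rfl)
        (fun _ => rfl) S)
      (h.ker ⧸ Rs ι h S)
      (fun W => qmap (h1 := h.comp (KW ι t W).subtype) (h2 := h)
        (ι1 := ιW ι t W) (ι2 := ι) (KW ι t W).subtype (fun _ => rfl) (fun _ => rfl) S)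
      ?_ ?_ ?_ ?_ ?_ hmem
    · intro W hW x
      obtain ⟨x, rfl⟩ := QuotientGroup.mk'_surjective _ x
      rfl
    · intro W W' W'' hW hW' x
      obtain ⟨x, rfl⟩ := QuotientGroup.mk'_surjective _ x
      rfl
    · intro W W' hW x
      obtain ⟨x, rfl⟩ := QuotientGroup.mk'_surjective _ x
      rfl
    · intro y
      obtain ⟨y, rfl⟩ := QuotientGroup.mk'_surjective _ y
      obtain ⟨W, hW⟩ := exists_KW hv y.1
      exact ⟨W, QuotientGroup.mk' _ ⟨⟨y.1, hW⟩, y.2⟩, rfl⟩
    · intro W x hx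
      obtain ⟨x, rfl⟩ := QuotientGroup.mk'_surjective _ x
      rw [qmap_mk, QuotientGroup.mk'_apply, QuotientGroup.eq_one_iff] at hx
      obtain ⟨W1, u, hu, hux⟩ := hkey _ hx
      refine ⟨W ∪ W1, Finset.subset_union_left, ?_⟩
      rw [qmap_mk, QuotientGroup.mk'_apply, QuotientGroup.eq_one_iff]
      have hu' := kmap_le (ι1 := ιW ι t W1) (ι2 := ιW ι t (W ∪ W1))
        (h1 := h.comp (KW ι t W1).subtype) (h2 := h.comp (KW ι t (W ∪ W1)).subtype)
        (Subgroup.inclusion (KW_mono Finset.subset_union_right)) (fun _ => rfl)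
        (fun _ => rfl) S hu
      have h5 : kmap (h1 := h.comp (KW ι t W).subtype)
          (h2 := h.comp (KW ι t (W ∪ W1)).subtype)
          (Subgroup.inclusion (KW_mono Finset.subset_union_left)) (fun _ => rfl) x =
          kmap (h1 := h.comp (KW ι t W1).subtype)
          (h2 := h.comp (KW ι t (W ∪ W1)).subtype)
          (Subgroup.inclusion (KW_mono Finset.subset_union_right)) (fun _ => rfl) u :=
        Subtype.ext (Subtype.ext hux.symm)
      rw [h5]
      exact hu'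

end inf

end Q30.LS
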